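import Pool.Agent.N986.CL.Gibbs
import Pool.Agent.N986.U.Mass
import Pool.Agent.N986.U.SysCU
import Pool.Agent.N109.SlabU.UpU
import Pool.Agent.N109.CL.Pos
import Pool.Agent.N839.C.Motion
import Pool.Agent.N990.OS.Main

/-!
# The continuum limit of lattice Yang–Mills theory in a slab at weak coupling
-/

set_option autoImplicit false

open MeasureTheory Filter Topology
open scoped Matrix

namespace Pool.Agent.N990.Draft.SCL1

noncomputable section

/-- The unitary group `U(N)`. -/
abbrev UU (N : ℕ) := Matrix.unitaryGroup (Fin N) ℂ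

/-- The links of the slab `ℤ^D × {0, …, L}` which are not in the wall `ℤ^D × {0}`: `(x, some i, s)`
is the horizontal link from `(x, s + 1)` to `(x + e i, s + 1)`, and `(x, none, s)` is the vertical
link from `(x, s)` to `(x, s + 1)`. -/
abbrev Link (D L : ℕ) := (Fin D → ℤ) × Option (Fin D) × Fin L

/-- The unit vector in the direction `i`. -/
def e {D : ℕ} (i : Fin D) : Fin D → ℤ := Pi.single i 1

section group

variable {D L : ℕ} {G : Type} [Group G]

/-- The link variable of the horizontal link from `(x, s)` to `(x + e i, s)`; it is `1` in the wall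
`s = 0`. -/
def low (U : Link D L → G) (x : Fin D → ℤ) (i : Fin D) (s : Fin L) : G :=
  if (s : ℕ) = 0 then 1 else U (x, some i, ⟨(s : ℕ) - 1, by omega⟩)

/-- The product of the link variables around the vertical plaquette with the corners `(x, s)`,
`(x + e i, s)`, `(x + e i, s + 1)`, `(x, s + 1)`. -/
def plaqV (U : Link D L → G) (x : Fin D → ℤ) (i : Fin D) (s : Fin L) : G :=
  low U x i s * U (x + e i, none, s) * (U (x, some i, s))⁻¹ * (U (x, none, s))⁻¹

/-- The product of the link variables around the horizontal plaquette with the corners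
`(x, s + 1)`, `(x + e i, s + 1)`, `(x + e i + e j, s + 1)`, `(x + e j, s + 1)`. -/
def plaqH (U : Link D L → G) (x : Fin D → ℤ) (i j : Fin D) (s : Fin L) : G :=
  U (x, some i, s) * U (x + e i, some j, s) * (U (x + e j, some i, s))⁻¹ * (U (x, some j, s))⁻¹

/-- The columns with a plaquette (based at one of their points) which contains a link of `M`. -/
def base (M : Finset (Link D L)) : Finset (Fin D → ℤ) :=
  M.image (fun l => l.1) ∪ Finset.univ.biUnion fun i : Fin D => M.image fun l => l.1 - e i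

/-- The configuration which is `y` on the links in `M` and `U` on the other links. -/
def patch (M : Finset (Link D L)) (y : M → G) (U : Link D L → G) : Link D L → G := fun l =>
  if h : l ∈ M then y ⟨l, h⟩ else U l

/-- Gauge transformation by `g`; `g x s` acts at the point `(x, s)`. -/
def gauge (g : (Fin D → ℤ) → ℕ → G) (U : Link D L → G) : Link D L → G := fun l =>
  match l with
  | (x, none, s) => g x s * U (x, none, s) * (g x (s + 1))⁻¹
  | (x, some i, s) => g x (s + 1) * U (x, some i, s) * (g (x + e i) (s + 1))⁻¹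

/-- The product of the link variables along the vertical line from `(x, 0)` to `(x, s)`. -/
def vert (U : Link D L → G) (x : Fin D → ℤ) : ℕ → G
  | 0 => 1
  | s + 1 => vert U x s * if h : s < L then U (x, none, ⟨s, h⟩) else 1

/-- The product of the link variables along the path from the wall to the wall which goes up from
`(x, 0)` to `(x, s + 1)`, to `(x + e i, s + 1)`, and down to `(x + e i, 0)`. -/
def loop (U : Link D L → G) (x : Fin D → ℤ) (i : Fin D) (s : Fin L) : G :=
  vert U x (s + 1) * U (x, some i, s) * (vert U (x + e i) (s + 1))⁻¹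

end group

section model

variable {D L : ℕ} {G : Type} [Group G]

/-- The energy of the plaquettes based at the points of the column of `x`, when `w p` is the energy
of a plaquette with the product `p` of the link variables. -/
def dens (w : G → ℝ) (U : Link D L → G) (x : Fin D → ℤ) : ℝ :=
  ∑ s : Fin L, ∑ i : Fin D, (w (plaqV U x i s) +
    ∑ j : Fin D, if i < j then w (plaqH U x i j s) else 0)

variable [MeasurableSpace G]

/-- The expectation of `F` in the lattice gauge theory with the inverse coupling `β` in the finite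
set `M` of links, with the boundary condition `U`. The link variables in `M` have the density
`exp (-β * energy)` with respect to the product of the measures `μ`, up to the normalization. -/
def expect (w : G → ℝ) (μ : Measure G) (β : ℝ) (M : Finset (Link D L)) (U : Link D L → G)
    (F : (Link D L → G) → ℝ) : ℝ :=
  (∫ y : M → G, F (patch M y U) * Real.exp (-(β * ∑ x ∈ base M, dens w (patch M y U) x))
    ∂(Measure.pi fun _ => μ)) /
    ∫ y : M → G, Real.exp (-(β * ∑ x ∈ base M, dens w (patch M y U) x)) ∂(Measure.pi fun _ => μ)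

/-- `P` is an infinite volume measure of the theory (the equations of Dobrushin, Lanford and
Ruelle). -/
structure IsGibbs (w : G → ℝ) (μ : Measure G) (β : ℝ) (P : Measure (Link D L → G)) : Prop where
  prob : IsProbabilityMeasure P
  dlr : ∀ (M : Finset (Link D L)) (F : (Link D L → G) → ℝ), Measurable F →
    (∃ c, ∀ U, |F U| ≤ c) → ∫ U, F U ∂P = ∫ U, expect w μ β M U F ∂P

end model

section continuum

/-- The slab `ℝ^D × [0, 1]`. -/
def slab (D : ℕ) : Set ((Fin D → ℝ) × ℝ) := {p | 0 ≤ p.2 ∧ p.2 ≤ 1}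

/-- The square of the curvature of the horizontal field `u` (the vertical component is zero). -/
def curvSq {D : ℕ} (u : (Fin D → ℝ) × ℝ → Fin D → ℝ) (p : (Fin D → ℝ) × ℝ) : ℝ :=
  ∑ i, fderiv ℝ u p (0, 1) i ^ 2 + ∑ i, ∑ j, if i < j then
    (fderiv ℝ u p (Pi.single i 1, 0) j - fderiv ℝ u p (Pi.single j 1, 0) i) ^ 2 else 0

/-- The variance of the free Maxwell field in the slab `ℝ^D × [0, 1]` smeared with `f`: the supremum
of `2 ⟨f, u⟩ - ∫ curvSq u` over the fields `u` of class `C^1` with compact support which vanish in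
the wall `ℝ^D × {0}`. -/
def maxwell {D : ℕ} (f : (Fin D → ℝ) × ℝ → Fin D → ℝ) : ℝ :=
  sSup {t | ∃ u : (Fin D → ℝ) × ℝ → Fin D → ℝ, ContDiff ℝ 1 u ∧ HasCompactSupport u ∧
    (∀ y, u (y, 0) = 0) ∧ t = 2 * (∫ p in slab D, ∑ i, f p i * u p i) - ∫ p in slab D, curvSq u p}

/-- The characteristic functional of `n` independent free Maxwell fields in the slab. -/
def charFun {n D : ℕ} (f : Fin n → (Fin D → ℝ) × ℝ → Fin D → ℝ) : ℂ :=
  (Real.exp (-(∑ j, maxwell (f j)) / 2) : ℝ)

end continuum

section reconstruction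

variable {n D : ℕ}

/-- The test functions are continuous with compact support, and vanish for `y i < 0`. -/
structure Half (i : Fin D) (f : Fin n → (Fin D → ℝ) × ℝ → Fin D → ℝ) : Prop where
  cont : ∀ j, Continuous (f j)
  supp : ∀ j, HasCompactSupport (f j)
  half : ∀ j p, p.1 i < 0 → f j p = 0

/-- The reflection of the test functions (which are one-forms) in the hyperplane `y i = 0`. -/
def refl (i : Fin D) (f : Fin n → (Fin D → ℝ) × ℝ → Fin D → ℝ) :
    Fin n → (Fin D → ℝ) × ℝ → Fin D → ℝ := fun j p k =>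
  (if k = i then -1 else 1) * f j (Function.update p.1 i (-p.1 i), p.2) k

/-- The translation of the test functions by `t` in the direction `i`. -/
def shift (i : Fin D) (t : ℝ) (f : Fin n → (Fin D → ℝ) × ℝ → Fin D → ℝ) :
    Fin n → (Fin D → ℝ) × ℝ → Fin D → ℝ := fun j p => f j (p.1 - Pi.single i t, p.2)

variable {H : Type} [NormedAddCommGroup H] [InnerProductSpace ℂ H]

/-- The Osterwalder–Schrader reconstruction of the theory with the characteristic functional `S`,
with the Euclidean time in the direction `i`: the Hilbert space `H` is spanned by the vectors `J f`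
of the test functions `f` in the half space, their inner products are given by `S` and the
reflection, and `T t` acts as the translation by `t` in the direction `i`. -/
structure IsOS (i : Fin D) (S : (Fin n → (Fin D → ℝ) × ℝ → Fin D → ℝ) → ℂ) (T : ℝ → H →L[ℂ] H)
    (J : (Fin n → (Fin D → ℝ) × ℝ → Fin D → ℝ) → H) : Prop where
  inner_eq : ∀ f g, Half i f → Half i g → inner ℂ (J f) (J g) = S (g - refl i f)
  dense : Dense (Submodule.span ℂ (J '' {f | Half i f}) : Set H)
  transfer : ∀ t, 0 ≤ t → ∀ f, Half i f → T t (J f) = J (shift i t f)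

/-- `T` is a strongly continuous semigroup of positive contractions, and the unit vector `v` is
invariant. -/
structure IsSemi (T : ℝ → H →L[ℂ] H) (v : H) : Prop where
  zero : T 0 = 1
  add : ∀ s t, 0 ≤ s → 0 ≤ t → T (s + t) = T s * T t
  cont : ∀ x, ContinuousOn (fun t => T t x) (Set.Ici 0)
  pos : ∀ t, 0 ≤ t → (T t).IsPositive
  norm : ∀ t, 0 ≤ t → ‖T t‖ ≤ 1
  vac : ∀ t, 0 ≤ t → T t v = v
  one : ‖v‖ = 1

/-- The mass gap of `T` over the vacuum `v` is `m`: the norm of `T t` on the orthogonal complement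
of `v` is `exp (-m t)`. -/
def HasMass (T : ℝ → H →L[ℂ] H) (v : H) (m : ℝ) : Prop :=
  ∀ t, 0 ≤ t → IsLeast {c : ℝ | 0 ≤ c ∧ ∀ x, inner ℂ v x = 0 → ‖T t x‖ ≤ c * ‖x‖}
    (Real.exp (-(m * t)))

/-- The theory with the characteristic functional `S` has an Osterwalder–Schrader reconstruction
with the Euclidean time in the direction `i`. -/
def HasOS (i : Fin D) (S : (Fin n → (Fin D → ℝ) × ℝ → Fin D → ℝ) → ℂ) : Prop :=
  ∃ (H : Type) (_ : NormedAddCommGroup H) (_ : InnerProductSpace ℂ H) (_ : CompleteSpace H)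
    (T : ℝ → H →L[ℂ] H) (J : (Fin n → (Fin D → ℝ) × ℝ → Fin D → ℝ) → H), IsOS i S T J

/-- In every Osterwalder–Schrader reconstruction in the direction `i`, the operators `T t` are a
strongly continuous semigroup of positive contractions, and the vacuum `J 0` is invariant. -/
def IsSemiOS (i : Fin D) (S : (Fin n → (Fin D → ℝ) × ℝ → Fin D → ℝ) → ℂ) : Prop :=
  ∀ (H : Type) [NormedAddCommGroup H] [InnerProductSpace ℂ H] [CompleteSpace H]
    (T : ℝ → H →L[ℂ] H) (J : (Fin n → (Fin D → ℝ) × ℝ → Fin D → ℝ) → H), IsOS i S T J →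
    IsSemi T (J 0)

/-- In every Osterwalder–Schrader reconstruction in the direction `i`, the mass gap over the vacuum
`J 0` is `m`. -/
def HasMassOS (i : Fin D) (S : (Fin n → (Fin D → ℝ) × ℝ → Fin D → ℝ) → ℂ) (m : ℝ) : Prop :=
  ∀ (H : Type) [NormedAddCommGroup H] [InnerProductSpace ℂ H] [CompleteSpace H]
    (T : ℝ → H →L[ℂ] H) (J : (Fin n → (Fin D → ℝ) × ℝ → Fin D → ℝ) → H), IsOS i S T J →
    HasMass T (J 0) m

/-- The variance `V` is invariant under the Euclidean motions of `ℝ^D`. -/
def IsEuclidean (V : ((Fin D → ℝ) × ℝ → Fin D → ℝ) → ℝ) : Prop :=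
  ∀ A ∈ Matrix.orthogonalGroup (Fin D) ℝ, ∀ (v : Fin D → ℝ) (f : (Fin D → ℝ) × ℝ → Fin D → ℝ),
    Continuous f → HasCompactSupport f →
    V (fun p i => ∑ j, A j i * f (A *ᵥ p.1 + v, p.2) j) = V f

end reconstruction

section main

variable {N D L : ℕ} {G : Subgroup (UU N)}

/-- Wilson's energy `Re tr (1 - p)` of a plaquette with the product `p` of the link variables. -/
def energy (p : G) : ℝ := (Matrix.trace (1 - ((p : UU N) : Matrix (Fin N) (Fin N) ℂ))).re

/-- The component in the direction `X` of the gauge field with the inverse coupling `β` in the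
lattice of spacing `1 / L`, smeared with `f`: `a ^ (D + 1) * ∑ f(z) i * A(z) i` for `a = 1 / L` and
`A(z) i = √β * a ^ ((1 - D) / 2) * Re tr (Xᴴ (p - 1))`, where `p` is the product of the link
variables along the path through the horizontal link at `z` in the direction `i`. -/
def smeared (β : ℝ) (X : Matrix (Fin N) (Fin N) ℂ) (f : (Fin D → ℝ) × ℝ → Fin D → ℝ)
    (U : Link D L → G) : ℝ :=
  √β * ((L : ℝ) ^ (-(((D : ℝ) + 3) / 2)) * ∑' x : Fin D → ℤ, ∑ i : Fin D, ∑ s : Fin L,
    f (fun j => (x j : ℝ) / L, ((s : ℝ) + 1) / L) i *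
      (Matrix.trace (Xᴴ * (((loop U x i s : G) : UU N) - 1 : Matrix (Fin N) (Fin N) ℂ))).re)

/-- `X` is in the Lie algebra of `G`. -/
def IsLie (G : Subgroup (UU N)) (X : Matrix (Fin N) (Fin N) ℂ) : Prop :=
  ∀ t : ℝ, ∃ g ∈ G, (g : Matrix (Fin N) (Fin N) ℂ) = NormedSpace.exp (t • X)

/-- As the lattice spacing `1 / L` tends to zero, the joint characteristic functions of the gauge
fields with the inverse couplings `b L` and the distributions `P L`, in orthonormal directions of
the Lie algebra, smeared with continuous functions with compact support, converge to those of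
independent free Maxwell fields. -/
def ConvMaxwell [MeasurableSpace G] (b : ℕ → ℝ) (P : (L : ℕ) → Measure (Link D L → G)) : Prop :=
  ∀ (n : ℕ) (X : Fin n → Matrix (Fin N) (Fin N) ℂ), (∀ j, IsLie G (X j)) →
    (∀ i j, (Matrix.trace ((X i)ᴴ * X j)).re = if i = j then 1 else 0) →
    ∀ f : Fin n → (Fin D → ℝ) × ℝ → Fin D → ℝ, (∀ j, Continuous (f j)) →
    (∀ j, HasCompactSupport (f j)) →
    Tendsto (fun L => ∫ U, Complex.exp (Complex.I * ∑ j, (smeared (b L) (X j) (f j) U : ℂ)) ∂(P L))
      atTop (𝓝 (charFun f))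

lemma gauge_vert {G : Type} [Group G] (g : (Fin D → ℤ) → ℕ → G) (U : Link D L → G)
    (x : Fin D → ℤ) {s : ℕ} (hs : s ≤ L) :
    vert (gauge g U) x s = g x 0 * vert U x s * (g x s)⁻¹ := by
  induction s with
  | zero =>
    show 1 = g x 0 * 1 * (g x 0)⁻¹
    group
  | succ s ih =>
    show vert (gauge g U) x s * (if h : s < L then gauge g U (x, none, ⟨s, h⟩) else 1) =
      g x 0 * (vert U x s * (if h : s < L then U (x, none, ⟨s, h⟩) else 1)) * (g x (s + 1))⁻¹
    rw [ih (by omega), dif_pos (show s < L by omega), dif_pos (show s < L by omega)]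
    show g x 0 * vert U x s * (g x s)⁻¹ * (g x s * U (x, none, ⟨s, _⟩) * (g x (s + 1))⁻¹) = _
    group

lemma gauge_loop {G : Type} [Group G] {g : (Fin D → ℤ) → ℕ → G} (hg : ∀ x, g x 0 = 1)
    (U : Link D L → G) (x : Fin D → ℤ) (i : Fin D) (s : Fin L) :
    loop (gauge g U) x i s = loop U x i s := by
  unfold loop
  rw [gauge_vert g U x (show (s : ℕ) + 1 ≤ L from s.2),
    gauge_vert g U (x + e i) (show (s : ℕ) + 1 ≤ L from s.2), hg, hg]
  show 1 * vert U x (s + 1) * (g x (s + 1))⁻¹ * (g x (s + 1) * U (x, some i, s) *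
    (g (x + e i) (s + 1))⁻¹) * (1 * vert U (x + e i) (s + 1) * (g (x + e i) (s + 1))⁻¹)⁻¹ = _
  group

lemma gauge_smeared {g : (Fin D → ℤ) → ℕ → G} (hg : ∀ x, g x 0 = 1) (β : ℝ)
    (X : Matrix (Fin N) (Fin N) ℂ) (f : (Fin D → ℝ) × ℝ → Fin D → ℝ) (U : Link D L → G) :
    smeared β X f (gauge g U) = smeared β X f U := by
  unfold smeared
  simp only [gauge_loop hg]

variable [MeasurableSpace G]

lemma gibbs_iff (μ : Measure G) (β : ℝ) (P : Measure (Link D L → G)) :
    IsGibbs energy μ β P ↔ N986.SL.Dlr μ N986.SL.chi β P :=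
  ⟨fun h => ⟨h.prob, h.dlr⟩, fun h => ⟨h.prob, h.dlr⟩⟩

lemma vert_eq {G : Type} [Group G] (U : Link D L → G) (x : Fin D → ℤ) (s : ℕ) :
    vert U x s = N986.SL.hv U x s := by
  induction s with
  | zero => rfl
  | succ s ih =>
    show vert U x s * _ = N986.SL.hv U x s * _
    rw [ih]

lemma loop_eq {G : Type} [Group G] (U : Link D L → G) (x : Fin D → ℤ) (i : Fin D) (s : Fin L) :
    loop U x i s = N986.SL.ax U x (i, s) := by
  unfold loop N986.SL.ax
  rw [vert_eq, vert_eq]
  rfl

omit [MeasurableSpace G] in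
lemma smeared_eq (β : ℝ) (X : Matrix (Fin N) (Fin N) ℂ) (f : (Fin D → ℝ) × ℝ → Fin D → ℝ)
    (U : Link D L → G) : smeared β X f U = N986.CL.smr β X f U := by
  unfold smeared N986.CL.smr
  simp only [loop_eq]
  rfl

lemma maxwell_eq (f : (Fin D → ℝ) × ℝ → Fin D → ℝ) : maxwell f = N990.C.QC f := by
  unfold maxwell N990.C.QC
  congr 1
  ext t
  constructor
  · rintro ⟨u, h1, h2, h3, h4⟩
    exact ⟨u, ⟨h1, h2, h3⟩, h4⟩
  · rintro ⟨u, ⟨h1, h2, h3⟩, h4⟩
    exact ⟨u, h1, h2, h3, h4⟩

lemma charFun_eq {n : ℕ} (f : Fin n → (Fin D → ℝ) × ℝ → Fin D → ℝ) :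
    charFun f = N990.OS.Sc f := by
  unfold charFun N990.OS.Sc
  simp only [maxwell_eq]

lemma half_iff {n : ℕ} (i : Fin D) (f : Fin n → (Fin D → ℝ) × ℝ → Fin D → ℝ) :
    Half i f ↔ N990.OS.Half i f :=
  ⟨fun h => ⟨h.cont, h.supp, h.half⟩, fun h => ⟨h.cont, h.supp, h.half⟩⟩

lemma os_iff {n : ℕ} {H : Type} [NormedAddCommGroup H] [InnerProductSpace ℂ H] (i : Fin D)
    (T : ℝ → H →L[ℂ] H) (J : (Fin n → (Fin D → ℝ) × ℝ → Fin D → ℝ) → H) :
    IsOS i charFun T J ↔ N990.OS.IsOS i N990.OS.Sc T J := by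
  constructor
  · intro h
    refine ⟨fun f g hf hg => ?_, ?_, fun t ht f hf => h.transfer t ht f ((half_iff i f).2 hf)⟩
    · rw [h.inner_eq f g ((half_iff i f).2 hf) ((half_iff i g).2 hg), charFun_eq]
      rfl
    · have h1 := h.dense
      simp only [half_iff] at h1
      exact h1
  · intro h
    refine ⟨fun f g hf hg => ?_, ?_, fun t ht f hf => h.transfer t ht f ((half_iff i f).1 hf)⟩
    · rw [h.inner_eq f g ((half_iff i f).1 hf) ((half_iff i g).1 hg), charFun_eq]
      rfl
    · have h1 := h.dense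
      simp only [← half_iff] at h1
      exact h1

variable [BorelSpace G]

/-- existence and uniqueness of the infinite volume measure -/
theorem unique (hG : IsClosed (G : Set (UU N))) (μ : Measure G) [IsProbabilityMeasure μ]
    [μ.IsMulLeftInvariant] :
    ∃ K : ℕ, ∀ L : ℕ, 1 ≤ L → ∀ β : ℝ, K * (L : ℝ) ^ K ≤ β →
      ∃ P : Measure (Link D L → G), IsGibbs energy μ β P ∧ ∀ P', IsGibbs energy μ β P' → P' = P := by
  have hD : (0 : ℝ) ≤ D := Nat.cast_nonneg _
  have hU : N986.SL.UpU D μ :=
    N109.SlabU.upU_of_sys hG μ (by linarith : (1 : ℝ) ≤ 12 * D + 6) (N986.SL.sysCU hG μ)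
  obtain ⟨K, hK⟩ := N986.SL.slabU (D := D) hG μ (N986.SL.inflU hG μ) hU
    (by norm_num : (0 : ℝ) < 1 / 2) (by norm_num)
  refine ⟨K, fun L hL β hβ => ?_⟩
  have h0 : 2 * Real.cosh (N986.SL.mass L) - 2 = N990.lam0 L := by
    have h := N986.SL.cosh_mass L
    unfold N990.lam0
    rw [h]
    ring
  obtain ⟨P, h1⟩ := hK L hL (N986.SL.mass L) (N986.SL.mass_pos hL) h0 β hβ
  exact ⟨P, (gibbs_iff μ β P).2 h1.dlr, fun P' hP' => h1.uniq P' ((gibbs_iff μ β P').1 hP')⟩


/-- the continuum limit -/
theorem continuum (hG : IsClosed (G : Set (UU N))) (μ : Measure G) [IsProbabilityMeasure μ]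
    [μ.IsMulLeftInvariant] :
    ∃ K : ℕ, ∀ b : ℕ → ℝ, (∀ᶠ L : ℕ in atTop, (L : ℝ) ^ K ≤ b L) →
      ∃ P : (L : ℕ) → Measure (Link D L → G),
      (∀ᶠ L : ℕ in atTop, IsGibbs energy μ (b L) (P L) ∧
        ∀ P', IsGibbs energy μ (b L) P' → P' = P L) ∧ ConvMaxwell b P := by
  obtain ⟨K, hK⟩ := N986.CL.cl_gibbs (D := D) hG μ
  obtain ⟨K', hK'⟩ := unique (D := D) hG μ
  refine ⟨max K (K' + 1), fun b hb => ?_⟩
  have hex : ∀ L : ℕ, ∃ P : Measure (Link D L → G), 1 ≤ L → K' * (L : ℝ) ^ K' ≤ b L →
      IsGibbs energy μ (b L) P ∧ ∀ P', IsGibbs energy μ (b L) P' → P' = P := by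
    intro L
    by_cases h : 1 ≤ L ∧ K' * (L : ℝ) ^ K' ≤ b L
    · obtain ⟨P, hP⟩ := hK' L h.1 (b L) h.2
      exact ⟨P, fun _ _ => hP⟩
    · exact ⟨0, fun h1 h2 => absurd ⟨h1, h2⟩ h⟩
  choose P hP using hex
  have hP2 : ∀ᶠ L : ℕ in atTop, IsGibbs energy μ (b L) (P L) ∧
      ∀ P', IsGibbs energy μ (b L) P' → P' = P L := by
    filter_upwards [hb, eventually_ge_atTop 1, eventually_ge_atTop K'] with L h1 h2 h3
    refine hP L h2 (le_trans ?_ h1)
    have hL : (1 : ℝ) ≤ L := by exact_mod_cast h2
    refine le_trans ?_ (pow_le_pow_right₀ hL (le_max_right _ _))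
    rw [pow_succ, mul_comm]
    exact mul_le_mul_of_nonneg_left (by exact_mod_cast h3) (by positivity)
  refine ⟨P, hP2, fun n X hX hort f hf hfs => ?_⟩
  have hb' : ∀ᶠ L : ℕ in atTop, (L : ℝ) ^ K ≤ b L := by
    filter_upwards [hb, eventually_ge_atTop 1] with L h1 h2
    have hL : (1 : ℝ) ≤ L := by exact_mod_cast h2
    exact (pow_le_pow_right₀ hL (le_max_left _ _)).trans h1
  have h := hK b hb' P (hP2.mono fun L h => (gibbs_iff μ (b L) (P L)).1 h.1) n X
    (fun j t => by
      obtain ⟨g, hg, h⟩ := hX j t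
      exact ⟨⟨g, hg⟩, h⟩) hort f hf hfs
  simp only [← maxwell_eq, ← smeared_eq] at h
  refine (h.congr fun L => ?_).trans_eq ?_
  · push_cast
    rfl
  · unfold charFun
    push_cast
    rw [neg_div]

/-- **The continuum limit of lattice Yang–Mills theory in a slab at weak coupling, and its mass
gap.** Let `G` be a compact group of unitary matrices with Haar measure `μ`. Consider the theory with
the Wilson action and the inverse coupling `b L` in the slab `ℤ^D × {0, …, L}`, with trivial link
variables in the wall `ℤ^D × {0}` and free boundary condition at the height `L`; in units of the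
thickness of the slab, the lattice spacing is `1 / L`. There is `K` such that, if `b L ≥ L ^ K` for
all large `L`, then for large `L` there is exactly one infinite volume measure, and in the limit of
the lattice spacing zero all the joint characteristic functions of the smeared gauge invariant
fields converge to those of independent free Maxwell fields in the slab `ℝ^D × [0, 1]`, one for every
dimension of the Lie algebra. The limit is not degenerate, it is invariant under the horizontal
Euclidean motions, and its Osterwalder–Schrader reconstruction exists in every horizontal direction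
and gives a positive Hamiltonian with the mass gap `π / 2` if `D ≥ 2`. -/
theorem result (hG : IsClosed (G : Set (UU N))) (μ : Measure G) [IsProbabilityMeasure μ]
    [μ.IsMulLeftInvariant] :
    (∀ (L : ℕ) (β : ℝ) (X : Matrix (Fin N) (Fin N) ℂ) (f : (Fin D → ℝ) × ℝ → Fin D → ℝ)
      (g : (Fin D → ℤ) → ℕ → G) (U : Link D L → G), (∀ x, g x 0 = 1) →
      smeared β X f (gauge g U) = smeared β X f U) ∧
    (∃ K : ℕ, ∀ b : ℕ → ℝ, (∀ᶠ L : ℕ in atTop, (L : ℝ) ^ K ≤ b L) →
      ∃ P : (L : ℕ) → Measure (Link D L → G),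
      (∀ᶠ L : ℕ in atTop, IsGibbs energy μ (b L) (P L) ∧
        ∀ P', IsGibbs energy μ (b L) P' → P' = P L) ∧ ConvMaxwell b P) ∧
    (∀ f : (Fin D → ℝ) × ℝ → Fin D → ℝ, Continuous f → HasCompactSupport f →
      (∃ p, 0 < p.2 ∧ p.2 ≤ 1 ∧ f p ≠ 0) → 0 < maxwell f) ∧
    IsEuclidean (maxwell (D := D)) ∧
    ∀ (n : ℕ) (i : Fin D), HasOS i (charFun (n := n)) ∧ IsSemiOS i (charFun (n := n)) ∧
      (2 ≤ D → 1 ≤ n → HasMassOS i (charFun (n := n)) (Real.pi / 2)) := by
  refine ⟨fun L β X f g U hg => gauge_smeared hg β X f U, continuum hG μ, fun f hf hfs hp => ?_,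
    fun A hA v f hf hfs => ?_, fun n i => ?_⟩
  · rw [maxwell_eq]
    exact N109.CL.QC_pos hf hfs hp
  · rw [maxwell_eq, maxwell_eq]
    exact N839.C.QC_mot hA v hf hfs
  · obtain ⟨⟨H, h1, h2, h3, T, J, h⟩, h4⟩ := N990.OS.os_main n i
    refine ⟨⟨H, h1, h2, h3, T, J, (os_iff i T J).2 h⟩, fun H _ _ _ T J h => ?_,
      fun hD hn H _ _ _ T J h => (h4 H T J ((os_iff i T J).1 h)).2 hD hn⟩
    obtain ⟨h5, _⟩ := h4 H T J ((os_iff i T J).1 h)
    exact ⟨h5.zero, h5.add, h5.cont, h5.pos, h5.norm, h5.vac, h5.one⟩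

end main

end

end Pool.Agent.N990.Draft.SCL1
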