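import Pool.Agent.N986.CL.Gibbs
import Pool.Agent.N986.U.Mass
import Pool.Agent.N986.U.SysCU
import Pool.Agent.N109.SlabU.UpU
import Pool.Agent.N109.CL.Pos
import Pool.Agent.N839.C.Motion
import Pool.Agent.N990.OS.Main

/-!
# The continuum limit of lattice Yang–Mills theory in a slab at weak coupling
-/

set_option autoImplicit false

open MeasureTheory Filter Topology
open scoped Matrix ComplexConjugate

namespace Pool.Agent.Results.MP_7f377f_mp.SlabContinuumLimit

noncomputable section

/-- The unitary group `U(N)`. -/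
abbrev UU (N : ℕ) := Matrix.unitaryGroup (Fin N) ℂ

/-- The links of the slab `ℤ^D × {0, …, L}` which are not in the wall `ℤ^D × {0}`: `(x, some i, s)`
is the horizontal link from `(x, s + 1)` to `(x + e i, s + 1)`, and `(x, none, s)` is the vertical
link from `(x, s)` to `(x, s + 1)`. -/
abbrev Link (D L : ℕ) := (Fin D → ℤ) × Option (Fin D) × Fin L

/-- The unit vector in the direction `i`. -/
def e {D : ℕ} (i : Fin D) : Fin D → ℤ := Pi.single i 1

section group

variable {D L : ℕ} {G : Type} [Group G]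

/-- The link variable of the horizontal link from `(x, s)` to `(x + e i, s)`; it is `1` in the wall
`s = 0`. -/
def low (U : Link D L → G) (x : Fin D → ℤ) (i : Fin D) (s : Fin L) : G :=
  if (s : ℕ) = 0 then 1 else U (x, some i, ⟨(s : ℕ) - 1, by omega⟩)

/-- The product of the link variables around the vertical plaquette with the corners `(x, s)`,
`(x + e i, s)`, `(x + e i, s + 1)`, `(x, s + 1)`. -/
def plaqV (U : Link D L → G) (x : Fin D → ℤ) (i : Fin D) (s : Fin L) : G :=
  low U x i s * U (x + e i, none, s) * (U (x, some i, s))⁻¹ * (U (x, none, s))⁻¹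

/-- The product of the link variables around the horizontal plaquette with the corners
`(x, s + 1)`, `(x + e i, s + 1)`, `(x + e i + e j, s + 1)`, `(x + e j, s + 1)`. -/
def plaqH (U : Link D L → G) (x : Fin D → ℤ) (i j : Fin D) (s : Fin L) : G :=
  U (x, some i, s) * U (x + e i, some j, s) * (U (x + e j, some i, s))⁻¹ * (U (x, some j, s))⁻¹

/-- The columns with a plaquette (based at one of their points) which contains a link of `M`. -/
def base (M : Finset (Link D L)) : Finset (Fin D → ℤ) :=
  M.image (fun l => l.1) ∪ Finset.univ.biUnion fun i : Fin D => M.image fun l => l.1 - e i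

/-- The configuration which is `y` on the links in `M` and `U` on the other links. -/
def patch (M : Finset (Link D L)) (y : M → G) (U : Link D L → G) : Link D L → G := fun l =>
  if h : l ∈ M then y ⟨l, h⟩ else U l

/-- Gauge transformation by `g`; `g x s` acts at the point `(x, s)`. -/
def gauge (g : (Fin D → ℤ) → ℕ → G) (U : Link D L → G) : Link D L → G := fun l =>
  match l with
  | (x, none, s) => g x s * U (x, none, s) * (g x (s + 1))⁻¹
  | (x, some i, s) => g x (s + 1) * U (x, some i, s) * (g (x + e i) (s + 1))⁻¹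

/-- The product of the link variables along the vertical line from `(x, 0)` to `(x, s)`. -/
def vert (U : Link D L → G) (x : Fin D → ℤ) : ℕ → G
  | 0 => 1
  | s + 1 => vert U x s * if h : s < L then U (x, none, ⟨s, h⟩) else 1

/-- The product of the link variables along the path from the wall to the wall which goes up from
`(x, 0)` to `(x, s + 1)`, to `(x + e i, s + 1)`, and down to `(x + e i, 0)`. -/
def loop (U : Link D L → G) (x : Fin D → ℤ) (i : Fin D) (s : Fin L) : G :=
  vert U x (s + 1) * U (x, some i, s) * (vert U (x + e i) (s + 1))⁻¹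

end group

section model

variable {D L : ℕ} {G : Type} [Group G]

/-- The energy of the plaquettes based at the points of the column of `x`, when `w p` is the energy
of a plaquette with the product `p` of the link variables. -/
def dens (w : G → ℝ) (U : Link D L → G) (x : Fin D → ℤ) : ℝ :=
  ∑ s : Fin L, ∑ i : Fin D, (w (plaqV U x i s) +
    ∑ j : Fin D, if i < j then w (plaqH U x i j s) else 0)

variable [MeasurableSpace G]

/-- The expectation of `F` in the lattice gauge theory with the inverse coupling `β` in the finite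
set `M` of links, with the boundary condition `U`. The link variables in `M` have the density
`exp (-β * energy)` with respect to the product of the measures `μ`, up to the normalization. -/
def expect (w : G → ℝ) (μ : Measure G) (β : ℝ) (M : Finset (Link D L)) (U : Link D L → G)
    (F : (Link D L → G) → ℝ) : ℝ :=
  (∫ y : M → G, F (patch M y U) * Real.exp (-(β * ∑ x ∈ base M, dens w (patch M y U) x))
    ∂(Measure.pi fun _ => μ)) /
    ∫ y : M → G, Real.exp (-(β * ∑ x ∈ base M, dens w (patch M y U) x)) ∂(Measure.pi fun _ => μ)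

/-- `P` is an infinite volume measure of the theory (the equations of Dobrushin, Lanford and
Ruelle). -/
structure IsGibbs (w : G → ℝ) (μ : Measure G) (β : ℝ) (P : Measure (Link D L → G)) : Prop where
  prob : IsProbabilityMeasure P
  dlr : ∀ (M : Finset (Link D L)) (F : (Link D L → G) → ℝ), Measurable F →
    (∃ c, ∀ U, |F U| ≤ c) → ∫ U, F U ∂P = ∫ U, expect w μ β M U F ∂P

end model

section lattice

variable {D L : ℕ} {G : Type} [Group G]

/-- The configuration translated by one lattice unit in the direction `i`. -/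
def step (i : Fin D) (U : Link D L → G) : Link D L → G := fun l => U (l.1 + e i, l.2)

/-- The configuration reflected in the hyperplane `x i = 0`; the link variables of the links in the
direction `i` are inverted. -/
def rev (i : Fin D) (U : Link D L → G) : Link D L → G := fun l =>
  if l.2.1 = some i then (U (Function.update l.1 i (-l.1 i) - e i, l.2))⁻¹
  else U (Function.update l.1 i (-l.1 i), l.2)

variable [MeasurableSpace G]

/-- `F` is an observable of the half space `0 ≤ x i`: a bounded measurable function of finitely many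
link variables of this half space, which is gauge invariant (the gauge transformations are trivial
in the wall). -/
structure IsObs (i : Fin D) (F : (Link D L → G) → ℂ) : Prop where
  meas : Measurable F
  bdd : ∃ c : ℝ, ∀ U, ‖F U‖ ≤ c
  loc : ∃ A : Finset (Fin D → ℤ), (∀ x ∈ A, 0 ≤ x i) ∧
    ∀ U U' : Link D L → G, (∀ l : Link D L, l.1 ∈ A → U l = U' l) → F U = F U'
  inv : ∀ g : (Fin D → ℤ) → ℕ → G, (∀ x, g x 0 = 1) → ∀ U, F (gauge g U) = F U

variable {H : Type} [NormedAddCommGroup H] [InnerProductSpace ℂ H]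

/-- The Osterwalder–Schrader reconstruction of the lattice theory with the infinite volume measure
`P`, with the Euclidean time in the direction `i`: the vectors `J F` of the observables `F` of the
half space are dense in the Hilbert space `H`, their inner products are given by `P` and the
reflection, and the transfer operator `T` acts as the translation by one lattice unit. -/
structure IsRec (i : Fin D) (P : Measure (Link D L → G)) (T : H →L[ℂ] H)
    (J : ((Link D L → G) → ℂ) → H) : Prop where
  inner_eq : ∀ F F', IsObs i F → IsObs i F' →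
    inner ℂ (J F) (J F') = ∫ U, conj (F (rev i U)) * F' U ∂P
  dense : Dense (J '' {F | IsObs i F})
  transfer : ∀ F, IsObs i F → T (J F) = J fun U => F (step i U)

/-- The transfer operator `T` has the vacuum `v` and a mass gap between `m` and `m'`: it is
self-adjoint with norm at most one, the multiples of the unit vector `v` are its only fixed vectors,
and the supremum of `‖z‖` over the other points `z` of its spectrum is between `exp (-m')` and
`exp (-m)`. -/
structure HasGap (T : H →L[ℂ] H) (v : H) (m m' : ℝ) : Prop where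
  adj : ∀ x y, inner ℂ (T x) y = inner ℂ x (T y)
  norm : ‖T‖ ≤ 1
  one : ‖v‖ = 1
  fixed : ∀ x, T x = x ↔ ∃ c : ℂ, x = c • v
  le : ∀ z ∈ spectrum ℂ T, z = 1 ∨ ‖z‖ ≤ Real.exp (-m)
  ge : ∃ z ∈ spectrum ℂ T, z ≠ 1 ∧ Real.exp (-m') ≤ ‖z‖

/-- The lattice theory with the infinite volume measure `P` has an Osterwalder–Schrader
reconstruction with the Euclidean time in the direction `i`, and in every such reconstruction the
transfer operator has the vacuum `J 1` and a mass gap between `m` and `m'`. -/
def HasRec (i : Fin D) (P : Measure (Link D L → G)) (m m' : ℝ) : Prop :=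
  (∃ (H : Type) (_ : NormedAddCommGroup H) (_ : InnerProductSpace ℂ H) (_ : CompleteSpace H)
    (T : H →L[ℂ] H) (J : ((Link D L → G) → ℂ) → H), IsRec i P T J) ∧
  ∀ (H : Type) [NormedAddCommGroup H] [InnerProductSpace ℂ H] [CompleteSpace H]
    (T : H →L[ℂ] H) (J : ((Link D L → G) → ℂ) → H), IsRec i P T J →
    HasGap T (J fun _ => 1) m m'

end lattice

section continuum

/-- The square of the curvature of the horizontal field `u` (the vertical component is zero). -/
def curvSq {D : ℕ} (u : (Fin D → ℝ) × ℝ → Fin D → ℝ) (p : (Fin D → ℝ) × ℝ) : ℝ :=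
  ∑ i, fderiv ℝ u p (0, 1) i ^ 2 + ∑ i, ∑ j, if i < j then
    (fderiv ℝ u p (Pi.single i 1, 0) j - fderiv ℝ u p (Pi.single j 1, 0) i) ^ 2 else 0

/-- The variance of the free Maxwell field in the slab `ℝ^D × [0, 1]` smeared with `f`: the supremum
of `2 ⟨f, u⟩ - ∫ curvSq u` over the fields `u` of class `C^1` with compact support which vanish in
the wall `ℝ^D × {0}`. -/
def maxwell {D : ℕ} (f : (Fin D → ℝ) × ℝ → Fin D → ℝ) : ℝ :=
  sSup {t | ∃ u : (Fin D → ℝ) × ℝ → Fin D → ℝ, ContDiff ℝ 1 u ∧ HasCompactSupport u ∧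
    (∀ y, u (y, 0) = 0) ∧ t = 2 * (∫ p in {p | 0 ≤ p.2 ∧ p.2 ≤ 1}, ∑ i, f p i * u p i) -
      ∫ p in {p | 0 ≤ p.2 ∧ p.2 ≤ 1}, curvSq u p}

/-- The characteristic functional of `n` independent free Maxwell fields in the slab. -/
def charFun {n D : ℕ} (f : Fin n → (Fin D → ℝ) × ℝ → Fin D → ℝ) : ℂ :=
  (Real.exp (-(∑ j, maxwell (f j)) / 2) : ℝ)

end continuum

section reconstruction

variable {n D : ℕ}

/-- The test functions are continuous with compact support, and vanish for `y i < 0`. -/
structure Half (i : Fin D) (f : Fin n → (Fin D → ℝ) × ℝ → Fin D → ℝ) : Prop where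
  cont : ∀ j, Continuous (f j)
  supp : ∀ j, HasCompactSupport (f j)
  half : ∀ j p, p.1 i < 0 → f j p = 0

/-- The reflection of the test functions (which are one-forms) in the hyperplane `y i = 0`. -/
def refl (i : Fin D) (f : Fin n → (Fin D → ℝ) × ℝ → Fin D → ℝ) :
    Fin n → (Fin D → ℝ) × ℝ → Fin D → ℝ := fun j p k =>
  (if k = i then -1 else 1) * f j (Function.update p.1 i (-p.1 i), p.2) k

/-- The translation of the test functions by `t` in the direction `i`. -/
def shift (i : Fin D) (t : ℝ) (f : Fin n → (Fin D → ℝ) × ℝ → Fin D → ℝ) :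
    Fin n → (Fin D → ℝ) × ℝ → Fin D → ℝ := fun j p => f j (p.1 - Pi.single i t, p.2)

variable {H : Type} [NormedAddCommGroup H] [InnerProductSpace ℂ H]

/-- The Osterwalder–Schrader reconstruction of the theory with the characteristic functional `S`,
with the Euclidean time in the direction `i`: the Hilbert space `H` is spanned by the vectors `J f`
of the test functions `f` in the half space, their inner products are given by `S` and the
reflection, and `T t` acts as the translation by `t` in the direction `i`. -/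
structure IsOS (i : Fin D) (S : (Fin n → (Fin D → ℝ) × ℝ → Fin D → ℝ) → ℂ) (T : ℝ → H →L[ℂ] H)
    (J : (Fin n → (Fin D → ℝ) × ℝ → Fin D → ℝ) → H) : Prop where
  inner_eq : ∀ f g, Half i f → Half i g → inner ℂ (J f) (J g) = S (g - refl i f)
  dense : Dense (Submodule.span ℂ (J '' {f | Half i f}) : Set H)
  transfer : ∀ t, 0 ≤ t → ∀ f, Half i f → T t (J f) = J (shift i t f)

/-- `T` is a strongly continuous semigroup of positive contractions, the unit vector `v` is
invariant, and the mass gap over the vacuum `v` is `m`: the norm of `T t` on the orthogonal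
complement of `v` is `exp (-m t)`. -/
structure IsSemi (T : ℝ → H →L[ℂ] H) (v : H) (m : ℝ) : Prop where
  zero : T 0 = 1
  add : ∀ s t, 0 ≤ s → 0 ≤ t → T (s + t) = T s * T t
  cont : ∀ x, ContinuousOn (fun t => T t x) (Set.Ici 0)
  pos : ∀ t, 0 ≤ t → (T t).IsPositive
  norm : ∀ t, 0 ≤ t → ‖T t‖ ≤ 1
  vac : ∀ t, 0 ≤ t → T t v = v
  one : ‖v‖ = 1
  gap : ∀ t, 0 ≤ t → IsLeast {c : ℝ | 0 ≤ c ∧ ∀ x, inner ℂ v x = 0 → ‖T t x‖ ≤ c * ‖x‖}
    (Real.exp (-(m * t)))

/-- The theory with the characteristic functional `S` has an Osterwalder–Schrader reconstruction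
with the Euclidean time in the direction `i`, and in every such reconstruction the operators `T t`
are a strongly continuous semigroup of positive contractions, the vacuum `J 0` is invariant, and the
mass gap over it is `m`. -/
def HasOS (i : Fin D) (S : (Fin n → (Fin D → ℝ) × ℝ → Fin D → ℝ) → ℂ) (m : ℝ) : Prop :=
  (∃ (H : Type) (_ : NormedAddCommGroup H) (_ : InnerProductSpace ℂ H) (_ : CompleteSpace H)
    (T : ℝ → H →L[ℂ] H) (J : (Fin n → (Fin D → ℝ) × ℝ → Fin D → ℝ) → H), IsOS i S T J) ∧
  ∀ (H : Type) [NormedAddCommGroup H] [InnerProductSpace ℂ H] [CompleteSpace H]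
    (T : ℝ → H →L[ℂ] H) (J : (Fin n → (Fin D → ℝ) × ℝ → Fin D → ℝ) → H), IsOS i S T J →
    IsSemi T (J 0) m

/-- The variance `V` is invariant under the Euclidean motions of `ℝ^D`. -/
def IsEuclidean (V : ((Fin D → ℝ) × ℝ → Fin D → ℝ) → ℝ) : Prop :=
  ∀ A ∈ Matrix.orthogonalGroup (Fin D) ℝ, ∀ (v : Fin D → ℝ) (f : (Fin D → ℝ) × ℝ → Fin D → ℝ),
    Continuous f → HasCompactSupport f →
    V (fun p i => ∑ j, A j i * f (A *ᵥ p.1 + v, p.2) j) = V f

end reconstruction

section main

variable {N D L : ℕ} {G : Subgroup (UU N)}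

/-- Wilson's energy `Re tr (1 - p)` of a plaquette with the product `p` of the link variables. -/
def energy (p : G) : ℝ :=
  (Matrix.trace (1 - ((p : UU N) : Matrix (Fin N) (Fin N) ℂ))).re

/-- The component in the direction `X` of the gauge field with the inverse coupling `β` in the
lattice of spacing `1 / L`, smeared with `f`: `a ^ (D + 1) * ∑ f(z) i * A(z) i` for `a = 1 / L` and
`A(z) i = √β * a ^ ((1 - D) / 2) * Re tr (Xᴴ (p - 1))`, where `p` is the product of the link
variables along the path through the horizontal link at `z` in the direction `i`. -/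
def smeared (β : ℝ) (X : Matrix (Fin N) (Fin N) ℂ) (f : (Fin D → ℝ) × ℝ → Fin D → ℝ)
    (U : Link D L → G) : ℝ :=
  √β * ((L : ℝ) ^ (-(((D : ℝ) + 3) / 2)) * ∑' x : Fin D → ℤ, ∑ i : Fin D, ∑ s : Fin L,
    f (fun j => (x j : ℝ) / L, ((s : ℝ) + 1) / L) i *
      (Matrix.trace (Xᴴ * (((loop U x i s : G) : UU N) - 1 : Matrix (Fin N) (Fin N) ℂ))).re)

/-- `X` is in the Lie algebra of `G`. -/
def IsLie (G : Subgroup (UU N)) (X : Matrix (Fin N) (Fin N) ℂ) : Prop :=
  ∀ t : ℝ, ∃ g ∈ G, (g : Matrix (Fin N) (Fin N) ℂ) = NormedSpace.exp (t • X)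

/-- As the lattice spacing `1 / L` tends to zero, the joint characteristic functions of the gauge
fields with the inverse couplings `b L` and the distributions `P L`, in orthonormal directions of
the Lie algebra, smeared with continuous functions with compact support, converge to those of
independent free Maxwell fields. -/
def Conv [MeasurableSpace G] (b : ℕ → ℝ) (P : (L : ℕ) → Measure (Link D L → G)) : Prop :=
  ∀ (n : ℕ) (X : Fin n → Matrix (Fin N) (Fin N) ℂ), (∀ j, IsLie G (X j)) →
    (∀ i j, (Matrix.trace ((X i)ᴴ * X j)).re = if i = j then 1 else 0) →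
    ∀ f : Fin n → (Fin D → ℝ) × ℝ → Fin D → ℝ, (∀ j, Continuous (f j)) →
    (∀ j, HasCompactSupport (f j)) →
    Tendsto (fun L => ∫ U, Complex.exp (Complex.I * ∑ j, (smeared (b L) (X j) (f j) U : ℂ)) ∂(P L))
      atTop (𝓝 (charFun f))

lemma gauge_vert {G : Type} [Group G] (g : (Fin D → ℤ) → ℕ → G) (U : Link D L → G)
    (x : Fin D → ℤ) {s : ℕ} (hs : s ≤ L) :
    vert (gauge g U) x s = g x 0 * vert U x s * (g x s)⁻¹ := by
  induction s with
  | zero =>
    show 1 = g x 0 * 1 * (g x 0)⁻¹
    group
  | succ s ih =>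
    show vert (gauge g U) x s * (if h : s < L then gauge g U (x, none, ⟨s, h⟩) else 1) =
      g x 0 * (vert U x s * (if h : s < L then U (x, none, ⟨s, h⟩) else 1)) * (g x (s + 1))⁻¹
    rw [ih (by omega), dif_pos (show s < L by omega), dif_pos (show s < L by omega)]
    show g x 0 * vert U x s * (g x s)⁻¹ * (g x s * U (x, none, ⟨s, _⟩) * (g x (s + 1))⁻¹) = _
    group

lemma gauge_loop {G : Type} [Group G] {g : (Fin D → ℤ) → ℕ → G} (hg : ∀ x, g x 0 = 1)
    (U : Link D L → G) (x : Fin D → ℤ) (i : Fin D) (s : Fin L) :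
    loop (gauge g U) x i s = loop U x i s := by
  unfold loop
  rw [gauge_vert g U x (show (s : ℕ) + 1 ≤ L from s.2),
    gauge_vert g U (x + e i) (show (s : ℕ) + 1 ≤ L from s.2), hg, hg]
  show 1 * vert U x (s + 1) * (g x (s + 1))⁻¹ * (g x (s + 1) * U (x, some i, s) *
    (g (x + e i) (s + 1))⁻¹) * (1 * vert U (x + e i) (s + 1) * (g (x + e i) (s + 1))⁻¹)⁻¹ = _
  group

lemma gauge_smeared {g : (Fin D → ℤ) → ℕ → G} (hg : ∀ x, g x 0 = 1) (β : ℝ)
    (X : Matrix (Fin N) (Fin N) ℂ) (f : (Fin D → ℝ) × ℝ → Fin D → ℝ) (U : Link D L → G) :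
    smeared β X f (gauge g U) = smeared β X f U := by
  unfold smeared
  simp only [gauge_loop hg]

variable [MeasurableSpace G]

lemma gibbs_iff (μ : Measure G) (β : ℝ) (P : Measure (Link D L → G)) :
    IsGibbs energy μ β P ↔ N986.SL.Dlr μ N986.SL.chi β P :=
  ⟨fun h => ⟨h.prob, h.dlr⟩, fun h => ⟨h.prob, h.dlr⟩⟩

lemma vert_eq {G : Type} [Group G] (U : Link D L → G) (x : Fin D → ℤ) (s : ℕ) :
    vert U x s = N986.SL.hv U x s := by
  induction s with
  | zero => rfl
  | succ s ih =>
    show vert U x s * _ = N986.SL.hv U x s * _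
    rw [ih]

lemma loop_eq {G : Type} [Group G] (U : Link D L → G) (x : Fin D → ℤ) (i : Fin D) (s : Fin L) :
    loop U x i s = N986.SL.ax U x (i, s) := by
  unfold loop N986.SL.ax
  rw [vert_eq, vert_eq]
  rfl

omit [MeasurableSpace G] in
lemma smeared_eq (β : ℝ) (X : Matrix (Fin N) (Fin N) ℂ) (f : (Fin D → ℝ) × ℝ → Fin D → ℝ)
    (U : Link D L → G) : smeared β X f U = N986.CL.smr β X f U := by
  unfold smeared N986.CL.smr
  simp only [loop_eq]
  rfl

lemma maxwell_eq (f : (Fin D → ℝ) × ℝ → Fin D → ℝ) : maxwell f = N990.C.QC f := by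
  unfold maxwell N990.C.QC
  congr 1
  ext t
  constructor
  · rintro ⟨u, h1, h2, h3, h4⟩
    exact ⟨u, ⟨h1, h2, h3⟩, h4⟩
  · rintro ⟨u, ⟨h1, h2, h3⟩, h4⟩
    exact ⟨u, h1, h2, h3, h4⟩

lemma charFun_eq {n : ℕ} (f : Fin n → (Fin D → ℝ) × ℝ → Fin D → ℝ) :
    charFun f = N990.OS.Sc f := by
  unfold charFun N990.OS.Sc
  simp only [maxwell_eq]

lemma half_iff {n : ℕ} (i : Fin D) (f : Fin n → (Fin D → ℝ) × ℝ → Fin D → ℝ) :
    Half i f ↔ N990.OS.Half i f :=
  ⟨fun h => ⟨h.cont, h.supp, h.half⟩, fun h => ⟨h.cont, h.supp, h.half⟩⟩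

lemma os_iff {n : ℕ} {H : Type} [NormedAddCommGroup H] [InnerProductSpace ℂ H] (i : Fin D)
    (T : ℝ → H →L[ℂ] H) (J : (Fin n → (Fin D → ℝ) × ℝ → Fin D → ℝ) → H) :
    IsOS i charFun T J ↔ N990.OS.IsOS i N990.OS.Sc T J := by
  constructor
  · intro h
    refine ⟨fun f g hf hg => ?_, ?_, fun t ht f hf => h.transfer t ht f ((half_iff i f).2 hf)⟩
    · rw [h.inner_eq f g ((half_iff i f).2 hf) ((half_iff i g).2 hg), charFun_eq]
      rfl
    · have h1 := h.dense
      simp only [half_iff] at h1
      exact h1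
  · intro h
    refine ⟨fun f g hf hg => ?_, ?_, fun t ht f hf => h.transfer t ht f ((half_iff i f).1 hf)⟩
    · rw [h.inner_eq f g ((half_iff i f).1 hf) ((half_iff i g).1 hg), charFun_eq]
      rfl
    · have h1 := h.dense
      simp only [← half_iff] at h1
      exact h1

lemma obs_iff {G : Type} [Group G] [MeasurableSpace G] (i : Fin D) (F : (Link D L → G) → ℂ) :
    IsObs i F ↔ F ∈ N986.SL.GObs G D L i :=
  ⟨fun h => ⟨⟨h.meas, h.bdd, h.loc⟩, h.inv⟩, fun h => ⟨h.1.meas, h.1.bdd, h.1.loc, h.2⟩⟩

lemma rec_iff {G : Type} [Group G] [MeasurableSpace G] (i : Fin D) (P : Measure (Link D L → G))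
    {H : Type} [NormedAddCommGroup H] [InnerProductSpace ℂ H] (T : H →L[ℂ] H)
    (J : ((Link D L → G) → ℂ) → H) : IsRec i P T J ↔
      N986.SL.Rec i (N986.SL.GObs G D L i : Set ((Link D L → G) → ℂ)) P T J := by
  have e : {F : (Link D L → G) → ℂ | IsObs i F} = (N986.SL.GObs G D L i : Set _) :=
    Set.ext fun F => obs_iff i F
  constructor
  · intro h
    have h1 := h.dense
    rw [e] at h1
    exact ⟨fun F hF F' hF' => h.inner_eq F F' ((obs_iff i F).2 hF) ((obs_iff i F').2 hF'), h1,
      fun F hF => h.transfer F ((obs_iff i F).2 hF)⟩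
  · intro h
    have h1 := h.dense
    rw [← e] at h1
    exact ⟨fun F F' hF hF' => h.ip F ((obs_iff i F).1 hF) F' ((obs_iff i F').1 hF'), h1,
      fun F hF => h.step F ((obs_iff i F).1 hF)⟩

lemma exists_point {H : Type} [NormedAddCommGroup H] [InnerProductSpace ℂ H] {T : H →L[ℂ] H}
    {M : ℝ} (h0 : 0 < N986.SL.massGap T) (h1 : N986.SL.massGap T < M) :
    ∃ z ∈ spectrum ℂ T, z ≠ 1 ∧ Real.exp (-M) ≤ ‖z‖ := by
  by_contra hc
  push Not at hc
  unfold N986.SL.massGap at h0 h1
  set S : Set ℝ := {t : ℝ | ∃ z ∈ spectrum ℂ T, z ≠ 1 ∧ ‖z‖ = t} with hS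
  rcases S.eq_empty_or_nonempty with h | h
  · rw [h, Real.sSup_empty, Real.log_zero, neg_zero] at h0
    exact lt_irrefl _ h0
  · have h2 : sSup S ≤ Real.exp (-M) := by
      refine csSup_le h ?_
      rintro t ⟨z, hz, hz1, rfl⟩
      exact (hc z hz hz1).le
    have h3 : 0 ≤ sSup S := Real.sSup_nonneg (by
      rintro t ⟨z, hz, hz1, rfl⟩
      exact norm_nonneg z)
    rcases h3.eq_or_lt with h4 | h4
    · rw [← h4, Real.log_zero, neg_zero] at h0
      exact lt_irrefl _ h0
    · have h5 := (Real.log_le_iff_le_exp h4).2 h2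
      linarith

variable [BorelSpace G]

/-- existence and uniqueness of the infinite volume measure, and the mass gap on the lattice -/
theorem unique [Infinite G] (hD : 2 ≤ D)
    (hG : IsClosed (G : Set (UU N))) (μ : Measure G)
    [IsProbabilityMeasure μ] [μ.IsMulLeftInvariant] {ε : ℝ} (hε : 0 < ε) :
    ∃ K : ℕ, ∀ L : ℕ, K ≤ L → ∀ β : ℝ, K * (L : ℝ) ^ K ≤ β →
      ∃ P : Measure (Link D L → G), IsGibbs energy μ β P ∧
        (∀ P', IsGibbs energy μ β P' → P' = P) ∧
        ∀ i, HasRec i P ((Real.pi / 2 - ε) / L) ((Real.pi / 2 + ε) / L) := by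
  have hD' : (0 : ℝ) ≤ D := Nat.cast_nonneg _
  have hU : N986.SL.UpU D μ :=
    N109.SlabU.upU_of_sys hG μ (by linarith : (1 : ℝ) ≤ 12 * D + 6) (N986.SL.sysCU hG μ)
  obtain ⟨δ, hδ0, hδ1, hδ2⟩ : ∃ δ : ℝ, 0 < δ ∧ δ < 1 ∧ δ ≤ ε / 2 :=
    ⟨min (1 / 2) (ε / 2), lt_min (by norm_num) (by positivity),
      lt_of_le_of_lt (min_le_left _ _) (by norm_num), min_le_right _ _⟩
  obtain ⟨K, hK⟩ := N986.SL.slabU (D := D) hG μ (N986.SL.inflU hG μ) hU hδ0 hδ1
  have hpi := Real.pi_lt_four
  have hpi0 := Real.pi_pos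
  have hlo : Real.pi / 2 - ε < (1 - δ) * (Real.pi / 2) := by nlinarith
  have hhi : (1 + δ) * (Real.pi / 2) < Real.pi / 2 + ε := by nlinarith
  have t1 : ∀ᶠ L : ℕ in atTop, Real.pi / 2 - ε < (1 - δ) * (L * N986.SL.mass L) :=
    (N986.SL.tendsto_mass.const_mul (1 - δ)).eventually_const_lt hlo
  have t2 : ∀ᶠ L : ℕ in atTop, (1 + δ) * (L * N986.SL.mass L) < Real.pi / 2 + ε :=
    (N986.SL.tendsto_mass.const_mul (1 + δ)).eventually_lt_const hhi
  obtain ⟨K', hK'⟩ := Filter.eventually_atTop.1 (t1.and t2)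
  refine ⟨max (max K K') 1, fun L hL β hβ => ?_⟩
  have hL0 : K ≤ L := ((le_max_left _ _).trans (le_max_left _ _)).trans hL
  have hL1 : 1 ≤ L := (le_max_right _ _).trans hL
  have hL2 : K' ≤ L := ((le_max_right _ _).trans (le_max_left _ _)).trans hL
  have hL3 : (1 : ℝ) ≤ L := by exact_mod_cast hL1
  have hL4 : (0 : ℝ) < L := by linarith
  have h0 : 2 * Real.cosh (N986.SL.mass L) - 2 = N990.lam0 L := by
    have h := N986.SL.cosh_mass L
    unfold N990.lam0
    rw [h]
    ring
  have hβ' : K * (L : ℝ) ^ K ≤ β := by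
    refine le_trans (mul_le_mul ?_ (pow_le_pow_right₀ hL3 ?_) (by positivity) (by positivity)) hβ
    · exact_mod_cast (le_max_left _ _).trans (le_max_left _ _)
    · exact (le_max_left _ _).trans (le_max_left _ _)
  obtain ⟨P, h1⟩ := hK L hL1 (N986.SL.mass L) (N986.SL.mass_pos hL1) h0 β hβ'
  obtain ⟨s1, s2⟩ := hK' L hL2
  have m1 : (Real.pi / 2 - ε) / L ≤ (1 - δ) * N986.SL.mass L := by
    rw [div_le_iff₀ hL4]
    nlinarith
  have m2 : (1 + δ) * N986.SL.mass L < (Real.pi / 2 + ε) / L := by
    rw [lt_div_iff₀ hL4]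
    nlinarith
  refine ⟨P, (gibbs_iff μ β P).2 h1.dlr, fun P' hP' => h1.uniq P' ((gibbs_iff μ β P').1 hP'),
    fun i => ⟨?_, fun H _ _ _ T J hR => ?_⟩⟩
  · obtain ⟨H, i1, i2, i3, T, J, hR⟩ := h1.rc i _ (N986.SL.alg_inv i)
    exact ⟨H, i1, i2, i3, T, J, (rec_iff i P T J).2 hR⟩
  · obtain ⟨a1, a2, a3, a4, a5, a6⟩ :=
      h1.gap i _ (N986.SL.alg_inv i) H T J ((rec_iff i P T J).1 hR)
    obtain ⟨b1, b2⟩ := a6 inferInstance hD (le_refl _)
    refine ⟨fun x y => ?_, a2, a3, a4, fun z hz => ?_, ?_⟩
    · rw [← ContinuousLinearMap.adjoint_inner_right, ← ContinuousLinearMap.star_eq_adjoint,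
        a1.star_eq]
    · rcases a5 z hz with h | h
      · exact Or.inl h
      · exact Or.inr (h.trans (Real.exp_le_exp.2 (neg_le_neg m1)))
    · refine exists_point (lt_of_lt_of_le ?_ b1) (lt_of_le_of_lt b2 m2)
      exact mul_pos (by linarith) (N986.SL.mass_pos hL1)

/-- the continuum limit -/
theorem continuum [Infinite G] (hD : 2 ≤ D)
    (hG : IsClosed (G : Set (UU N))) (μ : Measure G)
    [IsProbabilityMeasure μ] [μ.IsMulLeftInvariant] {ε : ℝ} (hε : 0 < ε) :
    ∃ K : ℕ, ∀ b : ℕ → ℝ, (∀ᶠ L : ℕ in atTop, (L : ℝ) ^ K ≤ b L) →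
      ∃ P : (L : ℕ) → Measure (Link D L → G),
      (∀ᶠ L : ℕ in atTop, IsGibbs energy μ (b L) (P L) ∧
        (∀ P', IsGibbs energy μ (b L) P' → P' = P L) ∧
        ∀ i, HasRec i (P L) ((Real.pi / 2 - ε) / L) ((Real.pi / 2 + ε) / L)) ∧
      Conv b P := by
  obtain ⟨K, hK⟩ := N986.CL.cl_gibbs (D := D) hG μ
  obtain ⟨K', hK'⟩ := unique (D := D) hD hG μ hε
  refine ⟨max K (K' + 1), fun b hb => ?_⟩
  have hex : ∀ L : ℕ, ∃ P : Measure (Link D L → G), K' ≤ L → K' * (L : ℝ) ^ K' ≤ b L →
      IsGibbs energy μ (b L) P ∧ (∀ P', IsGibbs energy μ (b L) P' → P' = P) ∧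
        ∀ i, HasRec i P ((Real.pi / 2 - ε) / L) ((Real.pi / 2 + ε) / L) := by
    intro L
    by_cases h : K' ≤ L ∧ K' * (L : ℝ) ^ K' ≤ b L
    · obtain ⟨P, hP⟩ := hK' L h.1 (b L) h.2
      exact ⟨P, fun _ _ => hP⟩
    · exact ⟨0, fun h1 h2 => absurd ⟨h1, h2⟩ h⟩
  choose P hP using hex
  have hP2 : ∀ᶠ L : ℕ in atTop, IsGibbs energy μ (b L) (P L) ∧
      (∀ P', IsGibbs energy μ (b L) P' → P' = P L) ∧
        ∀ i, HasRec i (P L) ((Real.pi / 2 - ε) / L) ((Real.pi / 2 + ε) / L) := by
    filter_upwards [hb, eventually_ge_atTop 1, eventually_ge_atTop K'] with L h1 h2 h3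
    refine hP L h3 (le_trans ?_ h1)
    have hL : (1 : ℝ) ≤ L := by exact_mod_cast h2
    refine le_trans ?_ (pow_le_pow_right₀ hL (le_max_right _ _))
    rw [pow_succ, mul_comm]
    exact mul_le_mul_of_nonneg_left (by exact_mod_cast h3) (by positivity)
  refine ⟨P, hP2, fun n X hX hort f hf hfs => ?_⟩
  have hb' : ∀ᶠ L : ℕ in atTop, (L : ℝ) ^ K ≤ b L := by
    filter_upwards [hb, eventually_ge_atTop 1] with L h1 h2
    have hL : (1 : ℝ) ≤ L := by exact_mod_cast h2
    exact (pow_le_pow_right₀ hL (le_max_left _ _)).trans h1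
  have h := hK b hb' P (hP2.mono fun L h => (gibbs_iff μ (b L) (P L)).1 h.1) n X
    (fun j t => by
      obtain ⟨g, hg, h⟩ := hX j t
      exact ⟨⟨g, hg⟩, h⟩) hort f hf hfs
  simp only [← maxwell_eq, ← smeared_eq] at h
  refine (h.congr fun L => ?_).trans_eq ?_
  · push_cast
    rfl
  · unfold charFun
    push_cast
    rw [neg_div]

/-- **The mass gap and the continuum limit of lattice Yang–Mills theory in a slab at weak
coupling.** Let `D ≥ 2` and let `G` be an infinite compact group of unitary matrices with Haar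
measure `μ`. Consider the theory with the Wilson action and the inverse coupling `b L` in the slab
`ℤ^D × {0, …, L}`, with trivial link variables in the wall `ℤ^D × {0}` and free boundary condition
at the height `L`; in units of the thickness of the slab, the lattice spacing is `1 / L`. For every
`ε > 0` there is `K` such that, if `b L ≥ L ^ K` for all large `L`, then for large `L` there is
exactly one infinite volume measure, its Osterwalder–Schrader reconstruction from the gauge
invariant observables exists in every horizontal direction, the transfer operator has a unique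
vacuum, and the mass gap, in units of the inverse thickness, is between `π / 2 - ε` and `π / 2 + ε`;
and in the limit of the lattice spacing zero all the joint characteristic functions of the smeared
gauge invariant fields converge to those of independent free Maxwell fields in the slab
`ℝ^D × [0, 1]`, one for every dimension of the Lie algebra. The limit is not degenerate, it is
invariant under the horizontal Euclidean motions, and its Osterwalder–Schrader reconstruction exists
in every horizontal direction and gives a positive Hamiltonian with the mass gap `π / 2`. -/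
theorem result [Infinite G] (hD : 2 ≤ D)
    (hG : IsClosed (G : Set (UU N))) (μ : Measure G)
    [IsProbabilityMeasure μ] [μ.IsMulLeftInvariant] :
    (∀ (L : ℕ) (β : ℝ) (X : Matrix (Fin N) (Fin N) ℂ) (f : (Fin D → ℝ) × ℝ → Fin D → ℝ)
      (g : (Fin D → ℤ) → ℕ → G) (U : Link D L → G), (∀ x, g x 0 = 1) →
      smeared β X f (gauge g U) = smeared β X f U) ∧
    (∀ f : (Fin D → ℝ) × ℝ → Fin D → ℝ, Continuous f → HasCompactSupport f →
      (∃ p, 0 < p.2 ∧ p.2 ≤ 1 ∧ f p ≠ 0) → 0 < maxwell f) ∧
    IsEuclidean (maxwell (D := D)) ∧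
    (∀ (n : ℕ) (i : Fin D), 1 ≤ n → HasOS i (charFun (n := n)) (Real.pi / 2)) ∧
    ∀ ε : ℝ, 0 < ε → ∃ K : ℕ, ∀ b : ℕ → ℝ, (∀ᶠ L : ℕ in atTop, (L : ℝ) ^ K ≤ b L) →
      ∃ P : (L : ℕ) → Measure (Link D L → G), Conv b P ∧
      ∀ᶠ L : ℕ in atTop, IsGibbs energy μ (b L) (P L) ∧
        (∀ P', IsGibbs energy μ (b L) P' → P' = P L) ∧
        ∀ i, HasRec i (P L) ((Real.pi / 2 - ε) / L) ((Real.pi / 2 + ε) / L) := by
  refine ⟨fun L β X f g U hg => gauge_smeared hg β X f U, fun f hf hfs hp => ?_,
    fun A hA v f hf hfs => ?_, fun n i hn => ?_, fun ε hε => ?_⟩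
  · rw [maxwell_eq]
    exact N109.CL.QC_pos hf hfs hp
  · rw [maxwell_eq, maxwell_eq]
    exact N839.C.QC_mot hA v hf hfs
  · obtain ⟨⟨H, h1, h2, h3, T, J, h⟩, h4⟩ := N990.OS.os_main n i
    refine ⟨⟨H, h1, h2, h3, T, J, (os_iff i T J).2 h⟩, fun H _ _ _ T J h => ?_⟩
    obtain ⟨h5, h6⟩ := h4 H T J ((os_iff i T J).1 h)
    exact ⟨h5.zero, h5.add, h5.cont, h5.pos, h5.norm, h5.vac, h5.one, h6 hD hn⟩
  · obtain ⟨K, hK⟩ := continuum (D := D) hD hG μ hε
    refine ⟨K, fun b hb => ?_⟩
    obtain ⟨P, h1, h2⟩ := hK b hb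
    exact ⟨P, h2, h1⟩

end main

end

end Pool.Agent.Results.MP_7f377f_mp.SlabContinuumLimit

/-
Claim of version 2 (left the page MP_7f377f_mp at 20:00 for StefanBoltzmann):
Proves: Let G be an infinite closed subgroup of U(N), D>=2, eps>0. For some K, if beta_L>=L^K for large L, then for large L Wilson's lattice gauge theory with group G, inverse coupling beta_L in the slab Z^D x {0..L} (links in the wall Z^D x 0 are 1, free top) has exactly one Gibbs measure and in each horizontal direction OS reconstruction from gauge invariant observables: self-adjoint transfer operator T, |T|<=1, fixing only the vacuum, mass gap in [(pi/2-eps)/L,(pi/2+eps)/L]; as 1/L->0 its gauge invariant fields, smeared with f_j in C_c(R^(D+1)), in orthonormal directions of Lie(G), converge in law (char functions) to independent free Maxwell fields of variance V(f_j) on R^D x [0,1]; V(f)>0 if f is not 0 on R^D x (0,1]; V is horizontally Euclidean invariant; the limit has in each horizontal direction OS reconstruction, positive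 contraction semigroup, mass gap exactly pi/2.
Definitions: UU: U(N); Link, e, low, plaqV, plaqH, base, patch, dens, energy, expect, IsGibbs: Wilson's theory, DLR; gauge; IsObs: gauge invariant half-space function; rev, step, IsRec, HasRec: OS, T=unit shift; HasGap: gap in [m,m']; vert, loop: wall-link-wall holonomy; IsLie: in Lie(G); smeared: scaled smeared loop-1; curvSq, maxwell: V(f)=sup 2<f,u>-int|du|^2; charFun: exp(-sum V/2); Conv, IsEuclidean, Half, refl, shift, IsOS, HasOS: see above; IsSemi: semigroup, norm exp(-mt) off vacuum.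
Relation: partial (Q1): continuum limit, mass gap in a slab (D=3: 4D); free: bare coupling a power of spacing; not R^4. Cf. Gross, Driver, Chatterjee.
-/
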