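import Pool.Agent.N986.SL.Final

/-!
# The mass gap of lattice Yang–Mills theory in a slab at weak coupling
-/

set_option autoImplicit false

open MeasureTheory
open scoped ComplexConjugate

namespace Pool.Agent.N990.Draft.SlabMassGap

noncomputable section

/-- The unitary group `U(N)`. -/
abbrev UU (N : ℕ) := Matrix.unitaryGroup (Fin N) ℂ

/-- The links of the slab `ℤ^D × {0, …, L}` which are not in the wall `ℤ^D × {0}`: `(x, some i, s)`
is the horizontal link from `(x, s + 1)` to `(x + e i, s + 1)`, and `(x, none, s)` is the vertical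
link from `(x, s)` to `(x, s + 1)`. -/
abbrev Link (D L : ℕ) := (Fin D → ℤ) × Option (Fin D) × Fin L

/-- The unit vector in the direction `i`. -/
def e {D : ℕ} (i : Fin D) : Fin D → ℤ := Pi.single i 1

section group

variable {D L : ℕ} {G : Type} [Group G]

/-- The link variable of the horizontal link from `(x, s)` to `(x + e i, s)`; it is `1` in the wall
`s = 0`. -/
def low (U : Link D L → G) (x : Fin D → ℤ) (i : Fin D) (s : Fin L) : G :=
  if (s : ℕ) = 0 then 1 else U (x, some i, ⟨(s : ℕ) - 1, by omega⟩)

/-- The product of the link variables around the vertical plaquette with the corners `(x, s)`,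
`(x + e i, s)`, `(x + e i, s + 1)`, `(x, s + 1)`. -/
def plaqV (U : Link D L → G) (x : Fin D → ℤ) (i : Fin D) (s : Fin L) : G :=
  low U x i s * U (x + e i, none, s) * (U (x, some i, s))⁻¹ * (U (x, none, s))⁻¹

/-- The product of the link variables around the horizontal plaquette with the corners
`(x, s + 1)`, `(x + e i, s + 1)`, `(x + e i + e j, s + 1)`, `(x + e j, s + 1)`. -/
def plaqH (U : Link D L → G) (x : Fin D → ℤ) (i j : Fin D) (s : Fin L) : G :=
  U (x, some i, s) * U (x + e i, some j, s) * (U (x + e j, some i, s))⁻¹ * (U (x, some j, s))⁻¹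

/-- The columns with a plaquette (based at one of their points) which contains a link of `M`. -/
def base (M : Finset (Link D L)) : Finset (Fin D → ℤ) :=
  M.image (fun l => l.1) ∪ Finset.univ.biUnion fun i : Fin D => M.image fun l => l.1 - e i

/-- The configuration which is `y` on the links in `M` and `U` on the other links. -/
def patch (M : Finset (Link D L)) (y : M → G) (U : Link D L → G) : Link D L → G := fun l =>
  if h : l ∈ M then y ⟨l, h⟩ else U l

/-- The configuration translated by the horizontal vector `v`. -/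
def shift (v : Fin D → ℤ) (U : Link D L → G) : Link D L → G := fun l => U (l.1 + v, l.2)

/-- The configuration reflected in the hyperplane `x i = 0`; the link variables of the links in the
direction `i` are inverted. -/
def refl (i : Fin D) (U : Link D L → G) : Link D L → G := fun l =>
  if l.2.1 = some i then (U (Function.update l.1 i (-l.1 i) - e i, l.2))⁻¹
  else U (Function.update l.1 i (-l.1 i), l.2)

/-- Gauge transformation by `g`; `g x s` acts at the point `(x, s)`. -/
def gauge (g : (Fin D → ℤ) → ℕ → G) (U : Link D L → G) : Link D L → G := fun l =>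
  match l with
  | (x, none, s) => g x s * U (x, none, s) * (g x (s + 1))⁻¹
  | (x, some i, s) => g x (s + 1) * U (x, some i, s) * (g (x + e i) (s + 1))⁻¹

/-- `F` depends only on the links based over the points of `A`. -/
def LocalIn {R : Type} (A : Finset (Fin D → ℤ)) (F : (Link D L → G) → R) : Prop :=
  ∀ U U' : Link D L → G, (∀ l : Link D L, l.1 ∈ A → U l = U' l) → F U = F U'

/-- `F` is an observable of the half space `0 ≤ x i`: a bounded measurable function of finitely many
link variables of this half space. -/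
structure IsObs [MeasurableSpace G] (i : Fin D) (F : (Link D L → G) → ℂ) : Prop where
  meas : Measurable F
  bdd : ∃ c : ℝ, ∀ U, ‖F U‖ ≤ c
  loc : ∃ A : Finset (Fin D → ℤ), (∀ x ∈ A, 0 ≤ x i) ∧ LocalIn A F

/-- `F` is gauge invariant (the gauge transformations are trivial in the wall `s = 0`). -/
def IsGaugeInv (F : (Link D L → G) → ℂ) : Prop :=
  ∀ g : (Fin D → ℤ) → ℕ → G, (∀ x, g x 0 = 1) → ∀ U, F (gauge g U) = F U

/-- Osterwalder–Schrader reconstruction in the direction `i` from the observables in `S`: the vectors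
`J F` of the observables `F ∈ S` are dense in `H`, their inner product is
`⟨J F, J F'⟩ = ∫ conj (F (refl i U)) * F' U ∂P`, and `T` is the transfer operator, which acts on
them as the translation by one lattice unit in the direction `i`. -/
structure IsReconstruction [MeasurableSpace G] (i : Fin D) (S : Set ((Link D L → G) → ℂ))
    (P : Measure (Link D L → G)) {H : Type} [NormedAddCommGroup H] [InnerProductSpace ℂ H]
    (T : H →L[ℂ] H) (J : ((Link D L → G) → ℂ) → H) : Prop where
  inner_eq : ∀ F ∈ S, ∀ F' ∈ S, inner ℂ (J F) (J F') = ∫ U, conj (F (refl i U)) * F' U ∂P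
  dense : Dense (J '' S)
  transfer : ∀ F ∈ S, T (J F) = J fun U => F (shift (e i) U)

/-- The observables of the half space `0 ≤ x i`. -/
def AllObs (G : Type) [Group G] [MeasurableSpace G] (D L : ℕ) (i : Fin D) :
    Set ((Link D L → G) → ℂ) := {F | IsObs i F}

/-- The gauge invariant observables of the half space `0 ≤ x i`. -/
def InvObs (G : Type) [Group G] [MeasurableSpace G] (D L : ℕ) (i : Fin D) :
    Set ((Link D L → G) → ℂ) := {F | IsObs i F ∧ IsGaugeInv F}

end group

/-- The mass gap of the theory with the transfer operator `T`: minus the logarithm of the supremum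
of `|z|` over the points `z ≠ 1` of the spectrum of `T`. -/
def massGap {H : Type} [NormedAddCommGroup H] [InnerProductSpace ℂ H] (T : H →L[ℂ] H) : ℝ :=
  -Real.log (sSup {t : ℝ | ∃ z ∈ spectrum ℂ T, z ≠ 1 ∧ ‖z‖ = t})

/-- `T` is a transfer operator with the vacuum `Ω` and a mass gap of at least `m`: it is
self-adjoint with norm at most one, the multiples of the unit vector `Ω` are its only fixed vectors,
and the rest of its spectrum is in the disc of radius `exp (-m)`. -/
structure HasGap {H : Type} [NormedAddCommGroup H] [InnerProductSpace ℂ H] [CompleteSpace H]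
    (T : H →L[ℂ] H) (Ω : H) (m : ℝ) : Prop where
  adj : IsSelfAdjoint T
  norm_le : ‖T‖ ≤ 1
  norm_vac : ‖Ω‖ = 1
  fixed : ∀ x, T x = x ↔ ∃ c : ℂ, x = c • Ω
  spec : ∀ z ∈ spectrum ℂ T, z = 1 ∨ ‖z‖ ≤ Real.exp (-m)

section model

variable {D L : ℕ} {G : Type} [Group G]

/-- The energy of the plaquettes based at the points of the column of `x`, when `w p` is the energy
of a plaquette with the product `p` of the link variables. -/
def dens (w : G → ℝ) (U : Link D L → G) (x : Fin D → ℤ) : ℝ :=
  ∑ s : Fin L, ∑ i : Fin D, (w (plaqV U x i s) +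
    ∑ j : Fin D, if i < j then w (plaqH U x i j s) else 0)

variable [MeasurableSpace G]

/-- The expectation of `F` in the lattice gauge theory with the inverse coupling `β` in the finite
set `M` of links, with the boundary condition `U`. The link variables in `M` have the density
`exp (-β * energy)` with respect to the product of the measures `μ`, up to the normalization. -/
def expect (w : G → ℝ) (μ : Measure G) (β : ℝ) (M : Finset (Link D L)) (U : Link D L → G)
    (F : (Link D L → G) → ℝ) : ℝ :=
  (∫ y : M → G, F (patch M y U) * Real.exp (-(β * ∑ x ∈ base M, dens w (patch M y U) x))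
    ∂(Measure.pi fun _ => μ)) /
    ∫ y : M → G, Real.exp (-(β * ∑ x ∈ base M, dens w (patch M y U) x)) ∂(Measure.pi fun _ => μ)

/-- `P` is an infinite volume measure of the theory (the equations of Dobrushin, Lanford and
Ruelle). -/
structure IsGibbs (w : G → ℝ) (μ : Measure G) (β : ℝ) (P : Measure (Link D L → G)) : Prop where
  prob : IsProbabilityMeasure P
  dlr : ∀ (M : Finset (Link D L)) (F : (Link D L → G) → ℝ), Measurable F →
    (∃ c, ∀ U, |F U| ≤ c) → ∫ U, F U ∂P = ∫ U, expect w μ β M U F ∂P

/-- The influence of every boundary condition on local functions bounded by one decays with the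
rate `m` (in the supremum distance of the columns). -/
def BoundaryDecay (w : G → ℝ) (μ : Measure G) (β : ℝ) (P : Measure (Link D L → G))
    (C m : ℝ) : Prop :=
  ∀ (A V : Finset (Fin D → ℤ)) (r : ℕ), (∀ a ∈ A, ∀ y ∉ V, (r : ℝ) ≤ dist a y) →
    ∀ F : (Link D L → G) → ℝ, Measurable F → (∀ U, |F U| ≤ 1) → LocalIn A F →
    ∀ U : Link D L → G, |expect w μ β (V ×ˢ Finset.univ) U F - ∫ U, F U ∂P| ≤
      C * A.card * Real.exp (-(m * r))

/-- The truncated correlations of local functions bounded by one decay with the rate `m` (in the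
supremum distance of the columns). -/
def Clustering (P : Measure (Link D L → G)) (C m : ℝ) : Prop :=
  ∀ (A B : Finset (Fin D → ℤ)) (r : ℕ), (∀ a ∈ A, ∀ y ∈ B, (r : ℝ) ≤ dist a y) →
    ∀ F F' : (Link D L → G) → ℝ, Measurable F → Measurable F' → (∀ U, |F U| ≤ 1) →
    (∀ U, |F' U| ≤ 1) → LocalIn A F → LocalIn B F' →
    |∫ U, F U * F' U ∂P - (∫ U, F U ∂P) * ∫ U, F' U ∂P| ≤
      C * A.card * Real.exp (-(m * r))

/-- `P` is the only infinite volume measure of the theory, the influence of the boundary conditions
and the correlations decay with the rate `m₀ - ε`, and in every horizontal direction, for the algebra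
of all observables and for the gauge invariant ones, the Osterwalder–Schrader reconstruction exists
and every transfer operator has a mass gap of at least `m₀ - ε`, and of at most `m₀ + ε` if `G` is
infinite and `D ≥ 2`. -/
structure HasMassGap (w : G → ℝ) (μ : Measure G) (β m₀ ε : ℝ) (P : Measure (Link D L → G)) :
    Prop where
  gibbs : IsGibbs w μ β P
  unique : ∀ P' : Measure (Link D L → G), IsGibbs w μ β P' → P' = P
  decay : ∃ C : ℝ, BoundaryDecay w μ β P C (m₀ - ε) ∧ Clustering P C (m₀ - ε)
  reconstruction : ∀ (i : Fin D) (S : Set ((Link D L → G) → ℂ)),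
    S = AllObs G D L i ∨ S = InvObs G D L i →
    ∃ (H : Type) (_ : NormedAddCommGroup H) (_ : InnerProductSpace ℂ H) (_ : CompleteSpace H)
      (T : H →L[ℂ] H) (J : ((Link D L → G) → ℂ) → H), IsReconstruction i S P T J
  gap : ∀ (i : Fin D) (S : Set ((Link D L → G) → ℂ)),
    S = AllObs G D L i ∨ S = InvObs G D L i →
    ∀ (H : Type) [NormedAddCommGroup H] [InnerProductSpace ℂ H] [CompleteSpace H]
      (T : H →L[ℂ] H) (J : ((Link D L → G) → ℂ) → H), IsReconstruction i S P T J →
      HasGap T (J fun _ => 1) (m₀ - ε) ∧ (Infinite G → 2 ≤ D → |massGap T - m₀| ≤ ε)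

end model

section main

variable {N D L : ℕ} {G : Subgroup (UU N)}

/-- Wilson's energy `Re tr (1 - p)` of a plaquette with the product `p` of the link variables. -/
def energy (p : G) : ℝ := (Matrix.trace (1 - ((p : UU N) : Matrix (Fin N) (Fin N) ℂ))).re

variable [MeasurableSpace G]

lemma gibbs_iff (μ : Measure G) (β : ℝ) (P : Measure (Link D L → G)) :
    IsGibbs energy μ β P ↔ N986.SL.Dlr μ N986.SL.chi β P :=
  ⟨fun h => ⟨h.prob, h.dlr⟩, fun h => ⟨h.prob, h.dlr⟩⟩

lemma obs_iff {G : Type} [Group G] [MeasurableSpace G] (i : Fin D) (F : (Link D L → G) → ℂ) :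
    IsObs i F ↔ N986.SL.IsObs i F :=
  ⟨fun h => ⟨h.meas, h.bdd, h.loc⟩, fun h => ⟨h.meas, h.bdd, h.loc⟩⟩

lemma rec_iff {G : Type} [Group G] [MeasurableSpace G] (i : Fin D)
    (S : Set ((Link D L → G) → ℂ)) (P : Measure (Link D L → G)) {H : Type}
    [NormedAddCommGroup H] [InnerProductSpace ℂ H] (T : H →L[ℂ] H)
    (J : ((Link D L → G) → ℂ) → H) : IsReconstruction i S P T J ↔ N986.SL.Rec i S P T J :=
  ⟨fun h => ⟨h.inner_eq, h.dense, h.transfer⟩, fun h => ⟨h.ip, h.dense, h.step⟩⟩

lemma all_eq {G : Type} [Group G] [MeasurableSpace G] (i : Fin D) :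
    {F : (Link D L → G) → ℂ | IsObs i F} = (N986.SL.ObsSpace G D L i : Set ((Link D L → G) → ℂ)) :=
  Set.ext fun F => obs_iff i F

lemma inv_eq {G : Type} [Group G] [MeasurableSpace G] (i : Fin D) :
    {F : (Link D L → G) → ℂ | IsObs i F ∧ IsGaugeInv F} =
      (N986.SL.GObs G D L i : Set ((Link D L → G) → ℂ)) :=
  Set.ext fun F => and_congr (obs_iff i F) Iff.rfl

lemma le_dd {x y : Fin D → ℤ} {r : ℕ} (h : (r : ℝ) ≤ dist x y) : r ≤ N986.SL.dd x y := by
  have h1 : dist x y ≤ (N986.SL.dd x y : ℝ) := by
    rw [dist_pi_le_iff (Nat.cast_nonneg _)]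
    intro j
    have h2 := N986.SL.dd_le.1 (le_refl (N986.SL.dd x y)) j
    rw [Int.dist_eq, ← Int.cast_sub, ← Int.cast_abs, Int.abs_eq_natAbs]
    exact_mod_cast h2
  exact_mod_cast h.trans h1

variable [BorelSpace G]

/-- **The mass gap of lattice Yang–Mills theory in a slab at weak coupling.** Let `G` be a compact
group of unitary matrices with Haar measure `μ` and let `m₀ > 0` be the solution of
`cosh m₀ = 2 - cos (π / (2 L + 1))`. For every `ε` and all `β ≥ β₀ (ε)`, the theory in the slab
`ℤ^D × {0, …, L}` with the Wilson action, trivial link variables in the wall `ℤ^D × {0}` and free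
boundary condition at the height `L` has exactly one infinite volume measure `P`. The influence of
every boundary condition and the truncated correlations decay exponentially with the rate
`m₀ - ε`. For every horizontal direction `i` there is an Osterwalder–Schrader reconstruction, and
in every one the transfer operator `T` is self-adjoint, the vacuum is the only invariant vector, and
the rest of the spectrum is in `[-exp (-(m₀ - ε)), exp (-(m₀ - ε))]`. If `G` is infinite and
`D ≥ 2`, then the mass gap of the theory is in `[m₀ - ε, m₀ + ε]`. -/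
theorem result (hG : IsClosed (G : Set (UU N))) (μ : Measure G) [IsProbabilityMeasure μ]
    [μ.IsMulLeftInvariant] (hL : 1 ≤ L) {m₀ : ℝ} (hm₀ : 0 < m₀)
    (h : Real.cosh m₀ = 2 - Real.cos (Real.pi / (2 * L + 1))) {ε : ℝ} (hε : 0 < ε)
    (hε' : ε < m₀) :
    ∃ β₀ : ℝ, ∀ β ≥ β₀, ∃ P : Measure (Link D L → G), HasMassGap energy μ β m₀ ε P := by
  have h0 : 2 * Real.cosh m₀ - 2 = N990.lam0 L := by
    unfold N990.lam0
    rw [h]
    ring
  obtain ⟨β₀, -, h1⟩ := N986.SL.slab (D := D) hG μ hL hm₀ h0 hε hε'
  refine ⟨β₀, fun β hβ => ?_⟩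
  obtain ⟨C, hC, P, h2, h3, h4, h5, h6⟩ := h1 β hβ
  have key : ∀ (i : Fin D) (S : Set ((Link D L → G) → ℂ)),
      S = AllObs G D L i ∨ S = InvObs G D L i → ∃ S' : Submodule ℂ ((Link D L → G) → ℂ),
        N986.SL.Alg i S' ∧ N986.SL.GObs G D L i ≤ S' ∧ S = S' := by
    intro i S hS
    rcases hS with hS | hS
    · exact ⟨_, N986.SL.alg_all i, fun F hF => hF.1, hS.trans (all_eq i)⟩
    · exact ⟨_, N986.SL.alg_inv i, le_refl _, hS.trans (inv_eq i)⟩
  refine ⟨P,
    { gibbs := (gibbs_iff μ β P).2 h2
      unique := fun P' hP' => h3 P' ((gibbs_iff μ β P').1 hP')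
      decay := ⟨C, fun A V r hA F hF hF1 hFA U => ?_, fun A B r hA F F' hF hF' hF1 hF1' hFA hFB => ?_⟩
      reconstruction := fun i S hS => ?_
      gap := fun i S hS H _ _ _ T J hR => ?_ }⟩
  · exact h4 V A r (fun a ha y hy => le_dd (hA a ha y hy)) F hF hF1 hFA U
  · have h7 := h5 A B r (fun a ha y hy => le_dd (hA a ha y hy)) F F' hF hF' hF1 hF1' hFA hFB
    rw [mul_comm (∫ U, F' U ∂P)] at h7
    simp only [mul_comm (F' _)] at h7
    exact h7
  · obtain ⟨S', hA, hle, hS'⟩ := key i S hS
    subst hS'
    obtain ⟨⟨H, i1, i2, i3, T, J, hR⟩, -⟩ := h6 i S' hA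
    exact ⟨H, i1, i2, i3, T, J, (rec_iff i _ P T J).2 hR⟩
  · obtain ⟨S', hA, hle, hS'⟩ := key i S hS
    subst hS'
    obtain ⟨a1, a2, a3, a4, a5, a6⟩ := (h6 i S' hA).2 H T J ((rec_iff i _ P T J).1 hR)
    exact ⟨⟨a1, a2, a3, a4, a5⟩, fun b1 b2 => a6 b1 b2 hle⟩

end main

end

end Pool.Agent.N990.Draft.SlabMassGap
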